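import Mathlib

set_option autoImplicit false

namespace Pool.Agent.Results.MP_bbfbdc_al.Sphere

/-- `a` flips the first letter. -/
def fa : List Bool → List Bool
  | [] => []
  | x :: w => (!x) :: w

/-- `fx 0 = b`, `fx 1 = c`, `fx 2 = d`:
`b(0w)=0a(w), b(1w)=1c(w); c(0w)=0a(w), c(1w)=1d(w); d(0w)=0w, d(1w)=1b(w)`. -/
def fx : Fin 3 → List Bool → List Bool
  | _, [] => []
  | i, false :: w => false :: (if i = 2 then w else fa w)
  | i, true :: w => true :: fx (i + 1) w

theorem fa_invol : Function.Involutive fa := by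
  intro w
  cases w <;> simp [fa]

theorem fx_invol (i : Fin 3) : Function.Involutive (fx i) := by
  intro w
  induction w generalizing i with
  | nil => simp [fx]
  | cons x w ih =>
    cases x
    · by_cases h : i = 2 <;> simp [fx, h, fa_invol w]
    · simp [fx, ih]

/-- the generators `a, b, c, d` as permutations of the vertices of the binary tree -/
def gen : Fin 4 → Equiv.Perm (List Bool) :=
  ![fa_invol.toPerm, (fx_invol 0).toPerm, (fx_invol 1).toPerm, (fx_invol 2).toPerm]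

/-- the group element represented by a word in the generators -/
def ev (w : List (Fin 4)) : Equiv.Perm (List Bool) := (w.map gen).prod

/-- elements of word length exactly `n` -/
def sphere (n : ℕ) : Set (Equiv.Perm (List Bool)) :=
  {g | (∃ w, w.length = n ∧ ev w = g) ∧ ∀ w, ev w = g → n ≤ w.length}

def ball (n : ℕ) : Set (Equiv.Perm (List Bool)) := {g | ∃ w, w.length ≤ n ∧ ev w = g}

theorem ev_append (u v : List (Fin 4)) : ev (u ++ v) = ev u * ev v := by simp [ev]
theorem ev_cons (i : Fin 4) (v : List (Fin 4)) : ev (i :: v) = gen i * ev v := by simp [ev]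
theorem ev_nil : ev [] = 1 := rfl
theorem ev_single (i : Fin 4) : ev [i] = gen i := by simp [ev]

theorem gen_sq (i : Fin 4) : gen i * gen i = 1 := by
  ext1 w
  fin_cases i
  · exact fa_invol w
  · exact fx_invol 0 w
  · exact fx_invol 1 w
  · exact fx_invol 2 w

theorem ev_reverse (w : List (Fin 4)) : ev w.reverse * ev w = 1 := by
  induction w with
  | nil => simp [ev]
  | cons i w ih =>
    rw [List.reverse_cons, ev_append, ev_single, ev_cons, mul_assoc, ← mul_assoc (gen i), gen_sq,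
      one_mul, ih]

theorem ball_finite (n : ℕ) : (ball n).Finite := by
  refine ((List.finite_length_le (Fin 4) n).image ev).subset ?_
  rintro g ⟨w, hw, rfl⟩
  exact ⟨w, hw, rfl⟩

theorem sphere_finite (n : ℕ) : (sphere n).Finite :=
  (ball_finite n).subset fun _ ⟨⟨w, hw, h⟩, _⟩ => ⟨w, hw.le, h⟩

theorem ball_mono {m n : ℕ} (h : m ≤ n) : ball m ⊆ ball n :=
  fun _ ⟨w, hw, e⟩ => ⟨w, hw.trans h, e⟩

def Sec (g u v : Equiv.Perm (List Bool)) : Prop :=
  g [] = [] ∧ ∀ w, g (false :: w) = false :: u w ∧ g (true :: w) = true :: v w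

theorem Sec.mul {g u v g' u' v' : Equiv.Perm (List Bool)} (h : Sec g u v) (h' : Sec g' u' v') :
    Sec (g * g') (u * u') (v * v') := by
  refine ⟨by simp [h'.1, h.1], fun w => ?_⟩
  simp [(h'.2 w).1, (h'.2 w).2, (h.2 _).1, (h.2 _).2]

theorem Sec.one : Sec 1 1 1 := ⟨rfl, fun _ => ⟨rfl, rfl⟩⟩

theorem Sec.swap {g u v : Equiv.Perm (List Bool)} (h : Sec g u v) :
    Sec (gen 0 * g * gen 0) v u := by
  have ha : ∀ w, gen 0 w = fa w := fun _ => rfl
  refine ⟨by simp [ha, fa, h.1], fun w => ?_⟩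
  simp [ha, fa, (h.2 w).1, (h.2 w).2]

theorem Sec.uniq {g u v u' v' : Equiv.Perm (List Bool)} (h : Sec g u v) (h' : Sec g u' v') :
    u = u' ∧ v = v' := by
  constructor
  · ext1 w
    exact List.tail_eq_of_cons_eq ((h.2 w).1.symm.trans (h'.2 w).1)
  · ext1 w
    exact List.tail_eq_of_cons_eq ((h.2 w).2.symm.trans (h'.2 w).2)

theorem Sec.ext {g g' u v : Equiv.Perm (List Bool)} (h : Sec g u v) (h' : Sec g' u v) :
    g = g' := by
  ext1 w
  rcases w with _ | ⟨x, w⟩
  · rw [h.1, h'.1]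
  · cases x
    · rw [(h.2 w).1, (h'.2 w).1]
    · rw [(h.2 w).2, (h'.2 w).2]

theorem sec_b : Sec (gen 1) (gen 0) (gen 2) := ⟨rfl, fun _ => ⟨rfl, rfl⟩⟩
theorem sec_c : Sec (gen 2) (gen 0) (gen 3) := ⟨rfl, fun _ => ⟨rfl, rfl⟩⟩
theorem sec_d : Sec (gen 3) 1 (gen 1) := ⟨rfl, fun _ => ⟨rfl, rfl⟩⟩

def sub : Fin 4 → List (Fin 4) := ![[0, 2, 0], [3], [1], [2]]
def th : Fin 4 → Equiv.Perm (List Bool) := ![gen 3, 1, gen 0, gen 0]

theorem sec_sub (i : Fin 4) : Sec (ev (sub i)) (th i) (gen i) := by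
  fin_cases i
  · have := sec_c.swap
    simpa [sub, th, ev, mul_assoc] using this
  · simpa [sub, th, ev] using sec_d
  · simpa [sub, th, ev] using sec_b
  · simpa [sub, th, ev] using sec_c

theorem sec_word (w : List (Fin 4)) : Sec (ev (w.flatMap sub)) (w.map th).prod (ev w) := by
  induction w with
  | nil => exact Sec.one
  | cons i w ih =>
    rw [List.flatMap_cons, ev_append, List.map_cons, List.prod_cons, ev_cons]
    exact (sec_sub i).mul ih

theorem len_word (w : List (Fin 4)) : (w.flatMap sub).length ≤ 3 * w.length := by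
  induction w with
  | nil => simp
  | cons i w ih =>
    have : (sub i).length ≤ 3 := by fin_cases i <;> simp [sub]
    rw [List.flatMap_cons, List.length_append, List.length_cons]
    omega

def T : List (Equiv.Perm (List Bool)) :=
  [1, gen 0, gen 3, gen 0 * gen 3, gen 3 * gen 0, gen 0 * (gen 3 * gen 0), gen 3 * (gen 0 * gen 3),
    gen 0 * (gen 3 * (gen 0 * gen 3))]

theorem dih : gen 3 * (gen 0 * (gen 3 * gen 0)) = gen 0 * (gen 3 * (gen 0 * gen 3)) := by
  have h1 := sec_d.mul sec_d.swap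
  have h2 := sec_d.swap.mul sec_d
  simp only [one_mul, mul_one, mul_assoc] at h1 h2
  exact h1.ext h2

theorem gen_sq' (i : Fin 4) (g : Equiv.Perm (List Bool)) : gen i * (gen i * g) = g := by
  rw [← mul_assoc, gen_sq, one_mul]

theorem th_mem (w : List (Fin 4)) : (w.map th).prod ∈ T := by
  induction w with
  | nil => simp [T]
  | cons i w ih =>
    rw [List.map_cons, List.prod_cons]
    generalize (w.map th).prod = g at ih
    have h0 : gen 0 * g ∈ T := by
      simp only [T, List.mem_cons, List.not_mem_nil, or_false] at ih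
      rcases ih with rfl | rfl | rfl | rfl | rfl | rfl | rfl | rfl <;>
        simp [T, gen_sq, gen_sq']
    have h3 : gen 3 * g ∈ T := by
      simp only [T, List.mem_cons, List.not_mem_nil, or_false] at ih
      rcases ih with rfl | rfl | rfl | rfl | rfl | rfl | rfl | rfl
      · simp [T]
      · simp [T]
      · simp [T, gen_sq]
      · simp [T]
      · simp [T, gen_sq']
      · rw [dih]; simp [T]
      · simp [T, gen_sq']
      · rw [← dih, gen_sq']; simp [T]
    fin_cases i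
    · exact h3
    · simpa [th] using ih
    · exact h0
    · exact h0

theorem T_card : ({g | g ∈ T} : Set (Equiv.Perm (List Bool))).ncard ≤ 8 := by
  classical
  rw [← List.coe_toFinset, Set.ncard_coe_finset]
  exact List.toFinset_card_le T

theorem ball_sq (n : ℕ) : (ball n).ncard ^ 2 ≤ 64 * (ball (6 * n + 2)).ncard := by
  have hch : ∀ g : Equiv.Perm (List Bool), ∃ w : List (Fin 4), g ∈ ball n → w.length ≤ n ∧ ev w = g := by
    intro g
    by_cases h : g ∈ ball n
    · obtain ⟨w, hw⟩ := h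
      exact ⟨w, fun _ => hw⟩
    · exact ⟨[], fun h' => absurd h' h⟩
  choose W hW using hch
  have hT : ({g | g ∈ T} : Set (Equiv.Perm (List Bool))).Finite := List.finite_toSet T
  have := Set.ncard_le_ncard_of_injOn (s := ball n ×ˢ ball n)
    (t := ball (6 * n + 2) ×ˢ ({g | g ∈ T} ×ˢ {g | g ∈ T}))
    (fun p => (ev ((W p.1).flatMap sub) * (gen 0 * ev ((W p.2).flatMap sub) * gen 0),
      ((W p.1).map th).prod, ((W p.2).map th).prod)) ?_ ?_ ((ball_finite _).prod (hT.prod hT))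
  · rw [Set.ncard_prod, Set.ncard_prod, Set.ncard_prod] at this
    have h8 := T_card
    calc _ = (ball n).ncard * (ball n).ncard := sq _
      _ ≤ _ := this
      _ ≤ (ball (6 * n + 2)).ncard * (8 * 8) := Nat.mul_le_mul_left _ (Nat.mul_le_mul h8 h8)
      _ = _ := by ring
  · rintro ⟨g, h⟩ ⟨hg, hh⟩
    refine ⟨⟨(W g).flatMap sub ++ ([0] ++ (W h).flatMap sub ++ [0]), ?_, ?_⟩, th_mem _, th_mem _⟩
    · have h1 := len_word (W g)
      have h2 := len_word (W h)
      have h3 := (hW g hg).1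
      have h4 := (hW h hh).1
      simp only [List.length_append, List.length_singleton]
      omega
    · simp only [ev_append, ev_single]
  · rintro ⟨g, h⟩ ⟨hg, hh⟩ ⟨g', h'⟩ ⟨hg', hh'⟩ e
    simp only [Prod.mk.injEq] at e
    obtain ⟨e1, e2, e3⟩ := e
    have s1 := (sec_word (W g)).mul (sec_word (W h)).swap
    have s2 := (sec_word (W g')).mul (sec_word (W h')).swap
    rw [e1, e2, e3, (hW g hg).2, (hW h hh).2] at s1
    rw [(hW g' hg').2, (hW h' hh').2] at s2
    obtain ⟨u1, u2⟩ := s1.uniq s2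
    exact Prod.ext (mul_right_cancel u2) (mul_left_cancel u1)

theorem ball_lt (n : ℕ) : (ball n).ncard < (ball (3 * n + 1)).ncard := by
  have hch : ∀ g : Equiv.Perm (List Bool), ∃ w : List (Fin 4), g ∈ ball n → w.length ≤ n ∧ ev w = g := by
    intro g
    by_cases h : g ∈ ball n
    · obtain ⟨w, hw⟩ := h
      exact ⟨w, fun _ => hw⟩
    · exact ⟨[], fun h' => absurd h' h⟩
  choose W hW using hch
  have ha : gen 0 ∈ ball (3 * n + 1) := ⟨[0], by simp, ev_single 0⟩
  have := Set.ncard_le_ncard_of_injOn (s := ball n) (t := ball (3 * n + 1) \ {gen 0})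
    (fun g => ev ((W g).flatMap sub)) ?_ ?_ ((ball_finite _).subset Set.sdiff_subset)
  · exact lt_of_le_of_lt this (Set.ncard_sdiff_singleton_lt_of_mem ha (ball_finite _))
  · intro g hg
    refine ⟨⟨_, ?_, rfl⟩, ?_⟩
    · have h1 := len_word (W g)
      have h3 := (hW g hg).1
      omega
    · intro e
      have e' : ev ((W g).flatMap sub) = gen 0 := e
      have := ((sec_word (W g)).2 []).1
      rw [e'] at this
      exact absurd (List.head_eq_of_cons_eq this) (by decide)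
  · intro g hg g' hg' e
    have s1 := sec_word (W g)
    have s2 := sec_word (W g')
    have e' : ev ((W g).flatMap sub) = ev ((W g').flatMap sub) := e
    rw [e', (hW g hg).2] at s1
    rw [(hW g' hg').2] at s2
    exact (s1.uniq s2).2

theorem ball_big (M : ℕ) : ∃ n, 1 ≤ n ∧ M ≤ (ball n).ncard := by
  induction M with
  | zero => exact ⟨1, le_rfl, Nat.zero_le _⟩
  | succ M ih =>
    obtain ⟨n, -, hn⟩ := ih
    exact ⟨3 * n + 1, by omega, lt_of_le_of_lt hn (ball_lt n)⟩

theorem ball_le_sphere (n : ℕ) : (ball n).ncard ≤ (sphere n).ncard * (6 * n + 1) := by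
  obtain ⟨w, hw, hw'⟩ : ∃ w : List (Fin 4), w.length ≤ 6 * n + 1 ∧ ev w ∉ ball (2 * n) := by
    by_contra hc
    push Not at hc
    have h1 : ball (3 * (2 * n) + 1) ⊆ ball (2 * n) := by
      rintro g ⟨w, hw, rfl⟩
      exact hc w (by omega)
    exact absurd (Set.ncard_le_ncard h1 (ball_finite _)) (not_le.mpr (ball_lt _))
  have hch : ∀ x : Equiv.Perm (List Bool), ∃ i : ℕ, x ∈ ball n →
      i < 6 * n + 1 ∧ x * ev (w.take i) ∈ sphere n := by
    intro x
    by_cases hx : x ∈ ball n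
    · have hend : x * ev (w.take w.length) ∉ ball n := by
        rw [List.take_length]
        rintro ⟨v, hv, e⟩
        obtain ⟨u, hu, rfl⟩ := hx
        apply hw'
        refine ⟨u.reverse ++ v, by simp; omega, ?_⟩
        rw [ev_append, e, ← mul_assoc, ev_reverse, one_mul]
      classical
      have hex : ∃ j, x * ev (w.take j) ∉ ball n := ⟨_, hend⟩
      have hj := Nat.find_spec hex
      have hjle : Nat.find hex ≤ w.length := Nat.find_min' hex hend
      have hj0 : Nat.find hex ≠ 0 := by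
        intro h
        rw [h] at hj
        exact hj (by simpa [ev_nil] using hx)
      obtain ⟨i, hi⟩ := Nat.exists_eq_succ_of_ne_zero hj0
      have hin : x * ev (w.take i) ∈ ball n := by
        by_contra h
        exact Nat.find_min hex (by omega : i < Nat.find hex) h
      have hmin : ∀ v, ev v = x * ev (w.take i) → n ≤ v.length := by
        intro v hv
        by_contra hlt
        apply hj
        rw [hi, Nat.succ_eq_add_one, List.take_add_one]
        refine ⟨v ++ w[i]?.toList, ?_, by rw [ev_append, ev_append, hv, mul_assoc]⟩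
        have : w[i]?.toList.length ≤ 1 := by cases w[i]? <;> simp
        rw [List.length_append]
        omega
      refine ⟨i, fun _ => ⟨by omega, ?_, hmin⟩⟩
      obtain ⟨v, hv, e⟩ := hin
      exact ⟨v, le_antisymm hv (hmin v e), e⟩
    · exact ⟨0, fun h => absurd h hx⟩
  choose I hI using hch
  have := Set.ncard_le_ncard_of_injOn (s := ball n) (t := sphere n ×ˢ Set.Iio (6 * n + 1))
    (fun x => (x * ev (w.take (I x)), I x)) ?_ ?_ ((sphere_finite _).prod (Set.finite_Iio _))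
  · rw [Set.ncard_prod] at this
    simpa using this
  · intro x hx
    exact ⟨(hI x hx).2, (hI x hx).1⟩
  · intro x _ y _ e
    simp only [Prod.mk.injEq] at e
    obtain ⟨e1, e2⟩ := e
    rw [e2] at e1
    exact mul_right_cancel e1

theorem ball_tower (n0 : ℕ) (h1 : 1 ≤ n0) (h : 128 ≤ (ball n0).ncard) (k : ℕ) :
    64 * 2 ^ (2 ^ k) ≤ (ball (8 ^ k * n0)).ncard := by
  induction k with
  | zero => simpa using h
  | succ k ih =>
    have h2 := ball_sq (8 ^ k * n0)
    have h3 : 1 ≤ 8 ^ k * n0 := Nat.mul_pos (by positivity) h1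
    have h4 : (ball (6 * (8 ^ k * n0) + 2)).ncard ≤ (ball (8 ^ (k + 1) * n0)).ncard :=
      Set.ncard_le_ncard (ball_mono (by rw [pow_succ]; nlinarith)) (ball_finite _)
    have h5 : (64 * 2 ^ (2 ^ k)) ^ 2 ≤ (ball (8 ^ k * n0)).ncard ^ 2 := Nat.pow_le_pow_left ih 2
    have h6 : (64 * 2 ^ (2 ^ k)) ^ 2 = 64 * (64 * 2 ^ (2 ^ (k + 1))) := by
      rw [mul_pow, ← pow_mul, ← pow_succ]; ring
    omega

theorem pow_aux (t : ℕ) (ht : 6 ≤ t) : 4 * (t + 1) + 6 ≤ 2 ^ t := by
  induction t, ht using Nat.le_induction with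
  | base => norm_num
  | succ t _ ih => rw [pow_succ]; omega

theorem result : ∃ α : ℝ, 0 < α ∧ ∃ C : ℕ, 0 < C ∧
    ∀ n : ℕ, Real.exp ((n : ℝ) ^ α) ≤ ((sphere (C * n)).ncard : ℝ) := by
  obtain ⟨n0, h1, h⟩ := ball_big 128
  refine ⟨(3 : ℝ)⁻¹, by norm_num, 8 ^ (n0 + 7) * n0, Nat.mul_pos (by positivity) h1, fun n => ?_⟩
  rcases Nat.eq_zero_or_pos n with rfl | hn
  · have h0 := ball_le_sphere 0
    have : 0 < (ball 0).ncard := by
      rw [Set.ncard_pos (ball_finite 0)]
      exact ⟨1, [], le_rfl, rfl⟩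
    have h2 : 1 ≤ (sphere 0).ncard := by omega
    simp only [Nat.cast_zero, mul_zero]
    rw [Real.zero_rpow (by norm_num), Real.exp_zero]
    exact_mod_cast h2
  obtain ⟨k, hk1, hk2⟩ : ∃ k, 8 ^ k ≤ n ∧ n < 8 ^ (k + 1) :=
    ⟨Nat.log 8 n, Nat.pow_log_le_self 8 hn.ne', Nat.lt_pow_succ_log_self (by norm_num) n⟩
  set m := 8 ^ (n0 + 7) * n0 * n with hm
  obtain ⟨t, ht⟩ : ∃ t, t = k + n0 + 6 := ⟨_, rfl⟩
  have b1 : 64 * 2 ^ (2 ^ (t + 1)) ≤ (ball m).ncard := by
    refine (ball_tower n0 h1 h (t + 1)).trans (Set.ncard_le_ncard (ball_mono ?_) (ball_finite _))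
    rw [hm, ht, show k + n0 + 6 + 1 = (n0 + 7) + k by ring, pow_add, mul_assoc, mul_assoc,
      mul_comm n0 n]
    exact Nat.mul_le_mul_left _ (Nat.mul_le_mul_right _ hk1)
  have b2 := ball_le_sphere m
  have b3 : 6 * m + 1 ≤ 2 ^ (4 * (t + 1) + 6) := by
    have e1 : n0 ≤ 2 ^ (t + 1) := by
      have : n0 < 2 ^ n0 := Nat.lt_two_pow_self
      exact this.le.trans (Nat.pow_le_pow_right (by norm_num) (by omega))
    have e2 : m ≤ 8 ^ (n0 + 7) * 2 ^ (t + 1) * 8 ^ (k + 1) :=
      Nat.mul_le_mul (Nat.mul_le_mul_left _ e1) hk2.le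
    have e3 : 8 ^ (n0 + 7) * 2 ^ (t + 1) * 8 ^ (k + 1) * 8 = 2 ^ (4 * (t + 1) + 6) := by
      rw [ht, show (8 : ℕ) = 2 ^ 3 by norm_num, ← pow_mul, ← pow_mul, ← pow_add, ← pow_add, ← pow_add]
      congr 1; ring
    have e4 : 1 ≤ m := Nat.mul_pos (Nat.mul_pos (by positivity) h1) hn
    omega
  have b4 : 2 ^ (4 * (t + 1) + 6) ≤ 2 ^ (2 ^ t) :=
    Nat.pow_le_pow_right (by norm_num) (pow_aux t (by omega))
  have b5 : 2 ^ (2 ^ t) ≤ (sphere m).ncard := by
    have e1 : 2 ^ (2 ^ (t + 1)) = 2 ^ (2 ^ t) * 2 ^ (2 ^ t) := by rw [← pow_add]; congr 1; ring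
    have e2 : (sphere m).ncard * (6 * m + 1) ≤ (sphere m).ncard * 2 ^ (2 ^ t) :=
      Nat.mul_le_mul_left _ (b3.trans b4)
    have e3 : 0 < 2 ^ (2 ^ t) := by positivity
    refine Nat.le_of_mul_le_mul_right ?_ e3
    omega
  have b6 : (n : ℝ) ^ (3 : ℝ)⁻¹ ≤ ((2 ^ (k + 1) : ℕ) : ℝ) := by
    have : (n : ℝ) ≤ (((2 ^ (k + 1) : ℕ) : ℝ)) ^ (3 : ℕ) := by
      have : n ≤ (2 ^ (k + 1)) ^ 3 := by
        rw [← pow_mul, mul_comm, pow_mul]; exact hk2.le
      exact_mod_cast this
    calc (n : ℝ) ^ (3 : ℝ)⁻¹ ≤ ((((2 ^ (k + 1) : ℕ) : ℝ)) ^ (3 : ℕ)) ^ (3 : ℝ)⁻¹ :=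
          Real.rpow_le_rpow (Nat.cast_nonneg n) this (by norm_num)
      _ = _ := by
          have := Real.pow_rpow_inv_natCast (x := ((2 ^ (k + 1) : ℕ) : ℝ)) (by positivity)
            (n := 3) (by norm_num)
          exact_mod_cast this
  calc Real.exp ((n : ℝ) ^ (3 : ℝ)⁻¹) ≤ Real.exp ((2 ^ (k + 1) : ℕ) : ℝ) := Real.exp_le_exp.mpr b6
    _ = Real.exp 1 ^ (2 ^ (k + 1)) := by rw [← Real.exp_nat_mul, mul_one]
    _ ≤ (2 ^ 2) ^ (2 ^ (k + 1)) :=
        pow_le_pow_left₀ (Real.exp_pos 1).le (by linarith [Real.exp_one_lt_d9]) _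
    _ = ((2 ^ (2 * 2 ^ (k + 1)) : ℕ) : ℝ) := by rw [← pow_mul]; push_cast; rfl
    _ ≤ ((2 ^ (2 ^ t) : ℕ) : ℝ) := by
        have : 2 * 2 ^ (k + 1) ≤ 2 ^ t := by
          rw [← pow_succ']; exact Nat.pow_le_pow_right (by norm_num) (by omega)
        exact_mod_cast Nat.pow_le_pow_right (by norm_num) this
    _ ≤ _ := by exact_mod_cast b5

end Pool.Agent.Results.MP_bbfbdc_al.Sphere
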